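import Pool.Agent.Work.MP_e487d8_al.Abs.Str

/-! MP_e487d8_al, abstract part: `Λ(C, Y)` as a linear function of the string of `C`. -/

set_option autoImplicit false

namespace Pool.Agent.KLRAbs

variable {I S O : Type} [DecidableEq I] [CommRing O] [Algebra ℚ O] (D : Sys I S O)

namespace Sys

/-- rational weight -/
noncomputable def wtq (X : S) : I →₀ ℚ := (D.wt X).mapRange (fun n : ℕ => (n : ℚ)) Nat.cast_zero

/-- `(α_i, v)` -/
noncomputable def pr (i : I) : (I →₀ ℚ) →ₗ[ℚ] ℚ :=
  Finsupp.linearCombination ℚ fun j => (D.A i j : ℚ)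

theorem pr_wtq (i : I) (X : S) :
    D.pr i (D.wtq X) = (((D.wt X).sum fun j n => D.A i j * (n : ℤ) : ℤ) : ℚ) := by
  classical
  rw [pr, wtq, Finsupp.linearCombination_apply, Finsupp.sum_mapRange_index (by simp),
    Finsupp.sum, Finsupp.sum]
  push_cast
  refine Finset.sum_congr rfl fun j _ => ?_
  rw [smul_eq_mul, mul_comm]

theorem wtq_add {X Y Z : S} (h : D.wt Z = D.wt X + D.wt Y) : D.wtq Z = D.wtq X + D.wtq Y := by
  ext i
  simp [wtq, h]

theorem wtq_E (i : I) (X : S) :
    D.wtq X = D.wtq (D.E i X) + Finsupp.single i (D.eps i X : ℚ) := by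
  classical
  ext j
  have h := DFunLike.congr_fun (D.wt_E i X) j
  simp only [Finsupp.add_apply] at h
  simp only [wtq, Finsupp.mapRange_apply, Finsupp.add_apply, h]
  rw [Finsupp.single_apply, Finsupp.single_apply]
  push_cast
  split_ifs <;> simp

theorem wtq_one : D.wtq D.one = 0 := by
  ext i
  simp [wtq, D.wt_one]

/-- the weight of a string -/
noncomputable def Bw : (w : List I) → V w →ₗ[ℚ] (I →₀ ℚ)
  | [] => 0
  | i :: w => (hd i w).smulRight (Finsupp.single i 1) + (Bw w) ∘ₗ tl i w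

/-- `C ↦ Λ(C, Y)` on strings -/
noncomputable def LL : (w : List I) → S → V w →ₗ[ℚ] ℚ
  | [], _ => 0
  | i :: w, Y => (LL w (D.E i Y)) ∘ₗ tl i w + (D.sg : ℚ) • ((D.eps i Y : ℚ) •
      ((D.pr i) ∘ₗ (Bw w) ∘ₗ tl i w) - (D.pr i (D.wtq (D.E i Y))) • hd i w)

theorem LL_cons (i : I) (w : List I) (Y : S) (v : V (i :: w)) :
    D.LL (i :: w) Y v = D.LL w (D.E i Y) (tl i w v) + D.sg * (D.eps i Y *
      D.pr i (Bw w (tl i w v)) - D.pr i (D.wtq (D.E i Y)) * hd i w v) := by
  rw [LL]
  simp

theorem wtq_Ad (w : List I) : ∀ {X : S}, D.Ad w X → D.wtq X = Bw w (D.str w X) := by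
  induction w with
  | nil =>
    intro X hX
    rw [Ad_nil] at hX
    rw [hX, wtq_one, Bw]; rfl
  | cons i w ih =>
    intro X hX
    rw [D.wtq_E i X, ih hX, Bw]
    simp only [LinearMap.add_apply, LinearMap.smulRight_apply, LinearMap.comp_apply]
    rw [hd_str, tl_str, add_comm]
    congr 1
    rw [Finsupp.smul_single, smul_eq_mul, mul_one]

variable [IsDomain O]

theorem Lam_LL (w : List I) : ∀ {C Y : S}, D.Rl C → D.Ad w C → D.Cm C Y →
    (D.Lam C Y : ℚ) = D.LL w Y (D.str w C) := by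
  induction w with
  | nil =>
    intro C Y _ hC _
    rw [Ad_nil] at hC
    rw [hC, D.Lam_one, LL]; simp
  | cons i w ih =>
    intro C Y hR hC hY
    obtain ⟨Z, hZ⟩ := hY
    rw [D.Lam_E i C Y Z hR hZ, LL_cons, tl_str, hd_str]
    push_cast
    rw [ih (D.rl_E i hR) hC (D.cm_E i ⟨Z, hZ⟩), ← D.wtq_Ad w hC, pr_wtq, pr_wtq]
    push_cast
    ring

omit [IsDomain O] in
theorem LL_one (w : List I) : D.LL w D.one = 0 := by
  induction w with
  | nil => rfl
  | cons i w ih =>
    refine LinearMap.ext fun v => ?_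
    rw [LL_cons, D.E_one, ih, D.eps_one, wtq_one]
    simp

omit [IsDomain O] in
theorem LL_inj (w : List I) : ∀ {Z X Y : S}, D.wt Z = D.wt X + D.wt Y →
    (∀ v, D.LL w Z v = D.LL w X v + D.LL w Y v) → D.str w Z = D.str w X + D.str w Y := by
  induction w with
  | nil => intro Z X Y _ _; exact (add_zero _).symm
  | cons i w ih =>
    intro Z X Y hwt h
    have hsg : (D.sg : ℚ) ≠ 0 := by exact_mod_cast D.sg_ne
    have h1 := h (cn i w (1, 0))
    rw [LL_cons, LL_cons, LL_cons, tl_cn, hd_cn] at h1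
    simp only [map_zero, mul_zero, zero_sub, mul_one, zero_add] at h1
    have h2 : D.pr i (D.wtq (D.E i Z)) = D.pr i (D.wtq (D.E i X)) +
        D.pr i (D.wtq (D.E i Y)) := by
      have h3 : (D.sg : ℚ) * (D.pr i (D.wtq (D.E i Z))) = D.sg * (D.pr i (D.wtq (D.E i X)) +
        D.pr i (D.wtq (D.E i Y))) := by linarith
      exact mul_left_cancel₀ hsg h3
    have h3 : ∀ W : S, D.pr i (D.wtq W) = D.pr i (D.wtq (D.E i W)) + 2 * D.eps i W := by
      intro W
      rw [D.wtq_E i W, map_add]
      congr 1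
      rw [pr, Finsupp.linearCombination_single, D.A_diag, smul_eq_mul]
      push_cast; ring
    have h4 : D.pr i (D.wtq Z) = D.pr i (D.wtq X) + D.pr i (D.wtq Y) := by
      rw [D.wtq_add hwt, map_add]
    rw [h3 Z, h3 X, h3 Y] at h4
    have h5 : (D.eps i Z : ℚ) = D.eps i X + D.eps i Y := by linarith
    have h5' : D.eps i Z = D.eps i X + D.eps i Y := by exact_mod_cast h5
    have h6 : D.wt (D.E i Z) = D.wt (D.E i X) + D.wt (D.E i Y) := by
      have h7 := D.wt_E i Z
      rw [hwt, D.wt_E i X, D.wt_E i Y, h5', Finsupp.single_add] at h7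
      have h8 : D.wt (D.E i X) + D.wt (D.E i Y) + (Finsupp.single i (D.eps i X) +
          Finsupp.single i (D.eps i Y)) = D.wt (D.E i Z) + (Finsupp.single i (D.eps i X) +
          Finsupp.single i (D.eps i Y)) := by
        rw [← h7]; abel
      exact (add_right_cancel h8).symm
    have h7 := ih h6 (fun v => by
      have h8 := h (cn i w (0, v))
      rw [LL_cons, LL_cons, LL_cons, tl_cn, hd_cn] at h8
      simp only [mul_zero, sub_zero] at h8
      rw [h5] at h8
      linarith)
    rw [str_cons, str_cons, str_cons, h7, h5, ← map_add]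
    rfl

omit [IsDomain O] in
/-- adaptedness from weight and string -/
theorem Ad_of_wt (w : List I) : ∀ {Z X Y : S}, D.wt Z = D.wt X + D.wt Y → D.Ad w X → D.Ad w Y →
    D.str w Z = D.str w X + D.str w Y → D.Ad w Z := by
  induction w with
  | nil =>
    intro Z X Y h hX hY _
    rw [Ad_nil] at hX hY ⊢
    rw [hX, hY, wt_one, add_zero] at h
    exact D.wt_zero Z h
  | cons i w ih =>
    intro Z X Y h hX hY hs
    have h5 : (D.eps i Z : ℚ) = D.eps i X + D.eps i Y := congrArg (hd i w) hs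
    have h5' : D.eps i Z = D.eps i X + D.eps i Y := by exact_mod_cast h5
    have h6 : D.wt (D.E i Z) = D.wt (D.E i X) + D.wt (D.E i Y) := by
      have h7 := D.wt_E i Z
      rw [h, D.wt_E i X, D.wt_E i Y, h5', Finsupp.single_add] at h7
      have h8 : D.wt (D.E i X) + D.wt (D.E i Y) + (Finsupp.single i (D.eps i X) +
          Finsupp.single i (D.eps i Y)) = D.wt (D.E i Z) + (Finsupp.single i (D.eps i X) +
          Finsupp.single i (D.eps i Y)) := by
        rw [← h7]; abel
      exact (add_right_cancel h8).symm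
    exact ih h6 hX hY (congrArg (tl i w) hs)

end Sys

end Pool.Agent.KLRAbs
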