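import Pool.Agent.Work.MP_e487d8_al.Abs.Factor

/-! MP_e487d8_al, abstract part: maximal families are free on exactly `m` atoms. -/

set_option autoImplicit false

namespace Pool.Agent.KLRAbs

variable {I S O : Type} [DecidableEq I] [CommRing O] [Algebra ℚ O] {D : Sys I S O}

namespace Sys

/-- products of a multiset of members of a family -/
theorem Fam.prod {w : List I} {N : Submonoid O} (hN : D.Fam w N) (s : Multiset S)
    (hs : ∀ X ∈ s, D.b X ∈ N) : ∃ Z, D.b Z = (s.map D.b).prod ∧ D.b Z ∈ N := by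
  have h : (s.map D.b).prod ∈ N := by
    refine Submonoid.multiset_prod_mem N _ fun x hx => ?_
    obtain ⟨X, hX, rfl⟩ := Multiset.mem_map.1 hx
    exact hs X hX
  obtain ⟨Z, hZ, _⟩ := hN.spl _ h
  exact ⟨Z, hZ, by rw [hZ]; exact h⟩

variable [IsDomain O]

theorem Fam.prod_str {w : List I} {N : Submonoid O} (hN : D.Fam w N) (s : Multiset S)
    (hs : ∀ X ∈ s, D.b X ∈ N) : ∃ Z, D.b Z = (s.map D.b).prod ∧ D.b Z ∈ N ∧
      D.str w Z = (s.map (D.str w)).sum := by
  induction s using Multiset.induction_on with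
  | empty => exact ⟨D.one, by simp [D.b_one], hN.one_mem, by simp [D.str_one]⟩
  | cons X s ih =>
    obtain ⟨Z, h1, h2, h3⟩ := ih (fun Y hY => hs Y (Multiset.mem_cons_of_mem hY))
    have hX := hs X (Multiset.mem_cons_self X s)
    obtain ⟨W, hW⟩ := hN.cm hX h2
    refine ⟨W, ?_, by rw [← hW]; exact N.mul_mem hX h2, ?_⟩
    · rw [Multiset.map_cons, Multiset.prod_cons, ← h1, hW]
    · rw [D.str_mul w hW, Multiset.map_cons, Multiset.sum_cons, h3]

/-- the primes of a family -/
def Pr (D : Sys I S O) (N : Submonoid O) : Set S := {X | D.b X ∈ N ∧ Prime (D.b X)}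

/-- two associated basis elements are equal -/
theorem eq_of_assoc {X Y : S} (h : Associated (D.b X) (D.b Y)) : X = Y := by
  classical
  obtain ⟨u, hu⟩ := h
  obtain ⟨a, ha⟩ := D.unit_scalar (g := (u : O)) (h := ((u⁻¹ : Oˣ) : O)) (by simp)
  rw [ha, mul_smul_comm, mul_one] at hu
  by_contra hne
  have h1 := congrArg (fun g => D.b.repr g Y) hu
  simp only [map_smul, Module.Basis.repr_self, Finsupp.smul_apply, Finsupp.single_apply,
    if_neg hne, smul_zero, if_true] at h1
  exact zero_ne_one h1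

variable [UniqueFactorizationMonoid O]

/-- every member is a product of primes of the family -/
theorem factor {w : List I} {N : Submonoid O} (hN : D.Fam w N) (hfull : D.sp w N = ⊤)
    (hmax : ∀ X, D.CC w N X → D.b X ∈ N) {x : S} (hx : D.b x ∈ N) :
    ∃ s : Multiset S, (∀ X ∈ s, X ∈ Pr D N) ∧ (s.map D.b).prod = D.b x := by
  classical
  obtain ⟨f, hf1, hf2⟩ := UniqueFactorizationMonoid.exists_prime_factors (D.b x) (D.b.ne_zero x)
  have key : ∀ f : Multiset O, (∀ p ∈ f, Prime p) → f.prod ∣ D.b x →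
      ∃ (a : ℚ) (s : Multiset S), (∀ X ∈ s, X ∈ Pr D N) ∧ f.prod = a • (s.map D.b).prod := by
    intro f
    induction f using Multiset.induction_on with
    | empty =>
      intro _ _
      exact ⟨1, 0, by simp, by simp⟩
    | cons p f ih =>
      intro hp hdvd
      rw [Multiset.prod_cons] at hdvd
      obtain ⟨a, s, hs1, hs2⟩ := ih (fun q hq => hp q (Multiset.mem_cons_of_mem hq))
        (dvd_trans (Dvd.intro_left _ rfl) hdvd)
      have hpp := hp p (Multiset.mem_cons_self p f)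
      obtain ⟨q, hq⟩ := dvd_trans (Dvd.intro _ rfl) hdvd
      obtain ⟨c, P, hP, hcP⟩ := thmF hN hfull hmax hx hq.symm
      have hc : c ≠ 0 := by
        rintro rfl
        rw [zero_smul] at hcP
        exact hpp.ne_zero hcP
      refine ⟨c * a, P ::ₘ s, ?_, ?_⟩
      · intro X hX
        rcases Multiset.mem_cons.1 hX with rfl | hX
        · refine ⟨hP, ?_⟩
          have h1 : Associated p (D.b X) := by
            refine ⟨Units.mk (algebraMap ℚ O c⁻¹) (algebraMap ℚ O c) ?_ ?_, ?_⟩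
            · rw [← map_mul, inv_mul_cancel₀ hc, map_one]
            · rw [← map_mul, mul_inv_cancel₀ hc, map_one]
            · show p * algebraMap ℚ O c⁻¹ = D.b X
              rw [hcP, smul_mul_assoc, mul_comm, ← Algebra.smul_def, smul_smul,
                mul_inv_cancel₀ hc, one_smul]
          exact h1.prime hpp
        · exact hs1 X hX
      · rw [Multiset.prod_cons, Multiset.map_cons, Multiset.prod_cons, hs2, hcP,
          smul_mul_smul_comm]
  obtain ⟨a, s, hs1, hs2⟩ := key f hf1 hf2.dvd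
  obtain ⟨Z, hZ, _⟩ := hN.prod s (fun X hX => (hs1 X hX).1)
  refine ⟨s, hs1, ?_⟩
  rw [← hZ] at hs2
  obtain ⟨u, hu⟩ := hf2
  obtain ⟨c, hc⟩ := D.unit_scalar (g := (u : O)) (h := ((u⁻¹ : Oˣ) : O)) (by simp)
  rw [hs2, hc, mul_smul_comm, mul_one, smul_smul] at hu
  rw [← hZ]
  congr 1
  by_contra hne
  have h1 := congrArg (fun g => D.b.repr g x) hu
  simp only [map_smul, Module.Basis.repr_self, Finsupp.smul_apply, Finsupp.single_apply,
    if_neg hne, smul_zero, if_true] at h1
  exact zero_ne_one h1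

theorem span_pr {w : List I} {N : Submonoid O} (hN : D.Fam w N) (hfull : D.sp w N = ⊤)
    (hmax : ∀ X, D.CC w N X → D.b X ∈ N) :
    Submodule.span ℚ (Set.range fun P : Pr D N => D.str w P) = ⊤ := by
  rw [eq_top_iff, ← hfull, sp, Submodule.span_le]
  rintro _ ⟨X, hX, rfl⟩
  obtain ⟨s, hs1, hs2⟩ := factor hN hfull hmax hX
  obtain ⟨Z, h1, _, h3⟩ := hN.prod_str s (fun X hX => (hs1 X hX).1)
  have h4 : X = Z := D.b_inj (hs2.symm.trans h1.symm)
  rw [h4, h3]
  refine multiset_sum_mem _ fun v hv => ?_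
  obtain ⟨Y, hY, rfl⟩ := Multiset.mem_map.1 hv
  exact Submodule.subset_span ⟨⟨Y, hs1 Y hY⟩, rfl⟩

omit [UniqueFactorizationMonoid O] in
/-- unique factorization -/
theorem uniq {N : Submonoid O} {s t : Multiset S} (hs : ∀ X ∈ s, X ∈ Pr D N)
    (ht : ∀ X ∈ t, X ∈ Pr D N) (h : (s.map D.b).prod = (t.map D.b).prod) : s = t := by
  have h1 := prime_factors_unique (f := s.map D.b) (g := t.map D.b)
    (fun x hx => by
      obtain ⟨X, hX, rfl⟩ := Multiset.mem_map.1 hx
      exact (hs X hX).2)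
    (fun x hx => by
      obtain ⟨X, hX, rfl⟩ := Multiset.mem_map.1 hx
      exact (ht X hX).2) (by rw [h]; exact Associated.refl _)
  rw [Multiset.rel_map] at h1
  rw [← Multiset.rel_eq]
  exact h1.mono fun X _ Y _ hXY => eq_of_assoc hXY

theorem li_pr {w : List I} {N : Submonoid O} (hN : D.Fam w N) :
    LinearIndependent ℚ (fun P : Pr D N => D.str w P) := by
  classical
  rw [← LinearIndependent.iff_fractionRing ℤ ℚ, linearIndependent_iff']
  intro s g hg i hi
  have key : ∀ n : Pr D N → ℕ, ∃ Z, D.b Z = ((∑ j ∈ s, n j • ({j.1} : Multiset S)).map D.b).prod ∧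
      D.b Z ∈ N ∧ D.str w Z = ∑ j ∈ s, n j • D.str w j := by
    intro n
    obtain ⟨Z, h1, h2, h3⟩ := hN.prod_str (∑ j ∈ s, n j • ({j.1} : Multiset S)) (by
      intro X hX
      rw [Multiset.mem_sum] at hX
      obtain ⟨j, _, hj⟩ := hX
      have := Multiset.mem_singleton.1 (Multiset.mem_of_mem_nsmul hj)
      rw [this]
      exact j.2.1)
    refine ⟨Z, h1, h2, h3.trans ?_⟩
    rw [← Multiset.coe_mapAddMonoidHom, map_sum, ← Multiset.coe_sumAddMonoidHom, map_sum]
    refine Finset.sum_congr rfl fun j _ => ?_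
    rw [map_nsmul, map_nsmul]
    simp
  obtain ⟨Z, h1, h2, h3⟩ := key (fun j => (g j).toNat)
  obtain ⟨Z', h1', h2', h3'⟩ := key (fun j => (-(g j)).toNat)
  have h4 : D.str w Z = D.str w Z' := by
    rw [h3, h3', ← sub_eq_zero, ← Finset.sum_sub_distrib, ← hg]
    refine Finset.sum_congr rfl fun j _ => ?_
    rw [← natCast_zsmul, ← natCast_zsmul, ← sub_smul]
    congr 1
    omega
  have h5 : Z = Z' := D.str_inj w (hN.ad h2) (hN.ad h2') h4
  have hmem : ∀ n : Pr D N → ℕ, ∀ X ∈ ∑ j ∈ s, n j • ({j.1} : Multiset S), X ∈ Pr D N := by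
    intro n X hX
    rw [Multiset.mem_sum] at hX
    obtain ⟨j, _, hj⟩ := hX
    have := Multiset.mem_singleton.1 (Multiset.mem_of_mem_nsmul hj)
    rw [this]
    exact j.2
  have h6 := uniq (hmem _) (hmem _) (h1.symm.trans ((congrArg D.b h5).trans h1'))
  have hcount : ∀ n : Pr D N → ℕ,
      Multiset.count i.1 (∑ j ∈ s, n j • ({j.1} : Multiset S)) = n i := by
    intro n
    rw [Multiset.count_sum']
    rw [Finset.sum_eq_single i]
    · rw [Multiset.count_nsmul, Multiset.count_singleton_self, mul_one]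
    · intro j _ hj
      rw [Multiset.count_nsmul, Multiset.count_singleton, if_neg, mul_zero]
      intro h
      exact hj (Subtype.ext h.symm)
    · intro h
      exact absurd hi h
  have h7 := congrArg (Multiset.count i.1) h6
  rw [hcount, hcount] at h7
  omega

/-- the primes of a family of full rank which contains everything that commutes with it: there
are exactly `m` of them -/
theorem card_pr {w : List I} {N : Submonoid O} (hN : D.Fam w N) (hfull : D.sp w N = ⊤)
    (hmax : ∀ X, D.CC w N X → D.b X ∈ N) : Finite (Pr D N) ∧ Nat.card (Pr D N) = w.length := by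
  have h1 := li_pr (D := D) hN
  have h2 := span_pr hN hfull hmax
  have hfin : Finite (Pr D N) := h1.finite
  refine ⟨hfin, ?_⟩
  have hb := Module.finrank_eq_nat_card_basis (Module.Basis.mk h1 h2.ge)
  rw [← hb, Module.finrank_fin_fun]

omit [UniqueFactorizationMonoid O] in
theorem mx_full {w : List I}
    (hspan : ∀ j, j <:+ w → Submodule.span ℚ {v | ∃ X, D.Ad j X ∧ D.str j X = v} = ⊤)
    {N : Submonoid O} (hN : Mx D w N) : D.sp w N = ⊤ ∧ ∀ X, D.CC w N X → D.b X ∈ N := by
  have hfull := stepR w hspan N hN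
  refine ⟨hfull, fun X hX => ?_⟩
  have h1 := hN.2 _ (cent_fam hN.1 hfull) (le_cent hN.1 hfull)
  rw [← h1]
  exact (mem_cent hN.1 hfull).2 hX

/-! ### translation to families of simple modules (without the trivial module) -/

/-- a stably irreducible family of adapted simple modules different from the trivial module -/
def IsFam (D : Sys I S O) (w : List I) (L : Set S) : Prop :=
  (∀ X ∈ L, X ≠ D.one ∧ D.Ad w X) ∧ ∀ X ∈ L, ∀ Y ∈ L, ∃ Z ∈ L, D.b X * D.b Y = D.b Z

/-- maximal among them -/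
def IsMaxFam (D : Sys I S O) (w : List I) (L : Set S) : Prop :=
  IsFam D w L ∧ ∀ L', IsFam D w L' → L ⊆ L' → L' = L

/-- the atomic members -/
def Atoms (D : Sys I S O) (L : Set S) : Set S :=
  {X | X ∈ L ∧ ¬ ∃ Y ∈ L, ∃ Z ∈ L, D.b Y * D.b Z = D.b X}

/-- every member of `L` is a nonempty product of members of `P` -/
def Generates (D : Sys I S O) (L P : Set S) : Prop :=
  ∀ X ∈ L, ∃ s : Multiset S, s ≠ 0 ∧ (∀ Y ∈ s, Y ∈ P) ∧ (s.map D.b).prod = D.b X

omit [IsDomain O] [UniqueFactorizationMonoid O] in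
theorem mul_ne_one {X Y : S} (hX1 : X ≠ D.one) : D.b X * D.b Y ≠ D.b D.one := by
  intro h
  have h1 := D.wt_co X Y D.one (by rw [D.co_of_mul h]; exact one_ne_zero)
  rw [D.wt_one] at h1
  exact hX1 (D.wt_zero X (add_eq_zero.1 h1.symm).1)

/-- the submonoid of a family -/
def mon {w : List I} {L : Set S} (hL : IsFam D w L) : Submonoid O where
  carrier := {x | ∃ X, D.b X = x ∧ (X = D.one ∨ X ∈ L)}
  one_mem' := ⟨D.one, D.b_one, Or.inl rfl⟩
  mul_mem' := by
    rintro _ _ ⟨X, rfl, hX⟩ ⟨Y, rfl, hY⟩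
    rcases hX with rfl | hX
    · exact ⟨Y, by rw [D.b_one, one_mul], hY⟩
    · rcases hY with rfl | hY
      · exact ⟨X, by rw [D.b_one, mul_one], Or.inr hX⟩
      · obtain ⟨Z, hZ, h⟩ := hL.2 X hX Y hY
        exact ⟨Z, h.symm, Or.inr hZ⟩

omit [IsDomain O] [UniqueFactorizationMonoid O] in
theorem mem_mon {w : List I} {L : Set S} (hL : IsFam D w L) {X : S} :
    D.b X ∈ mon hL ↔ X = D.one ∨ X ∈ L := by
  constructor
  · rintro ⟨Y, h1, h2⟩
    rwa [← D.b_inj h1]
  · intro h
    exact ⟨X, rfl, h⟩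

omit [IsDomain O] [UniqueFactorizationMonoid O] in
theorem mon_fam {w : List I} {L : Set S} (hL : IsFam D w L) : D.Fam w (mon hL) := by
  refine ⟨?_⟩
  rintro _ ⟨X, rfl, hX⟩
  rcases hX with rfl | hX
  · exact ⟨_, rfl, D.Ad_one w⟩
  · exact ⟨_, rfl, (hL.1 X hX).2⟩

omit [IsDomain O] [UniqueFactorizationMonoid O] in
theorem mon_mx {w : List I} {L : Set S} (hL : IsMaxFam D w L) : Mx D w (mon hL.1) := by
  refine ⟨mon_fam hL.1, fun N' hN' hle => ?_⟩
  have hfam : IsFam D w {X | D.b X ∈ N' ∧ X ≠ D.one} := by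
    refine ⟨fun X hX => ⟨hX.2, hN'.ad hX.1⟩, ?_⟩
    rintro X ⟨hX, hX1⟩ Y ⟨hY, hY1⟩
    obtain ⟨Z, hZ⟩ := hN'.cm hX hY
    refine ⟨Z, ⟨by rw [← hZ]; exact N'.mul_mem hX hY, ?_⟩, hZ⟩
    rintro rfl
    exact mul_ne_one hX1 hZ
  have h1 := hL.2 _ hfam (fun X hX => ⟨hle ((mem_mon hL.1).2 (Or.inr hX)), (hL.1.1 X hX).1⟩)
  refine le_antisymm ?_ hle
  intro x hx
  obtain ⟨X, rfl, _⟩ := hN'.spl x hx
  rw [mem_mon]
  by_cases hX : X = D.one
  · exact Or.inl hX
  · right
    rw [← h1]
    exact ⟨hx, hX⟩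

theorem atoms_eq {w : List I} {L : Set S} (hL : IsMaxFam D w L)
    (hspan : ∀ j, j <:+ w → Submodule.span ℚ {v | ∃ X, D.Ad j X ∧ D.str j X = v} = ⊤) :
    Atoms D L = Pr D (mon hL.1) := by
  classical
  have hmx := mon_mx hL
  obtain ⟨hfull, hmax⟩ := mx_full hspan hmx
  ext X
  constructor
  · rintro ⟨hX, hat⟩
    have hXN : D.b X ∈ mon hL.1 := (mem_mon hL.1).2 (Or.inr hX)
    refine ⟨hXN, ?_⟩
    obtain ⟨s, hs1, hs2⟩ := factor hmx.1 hfull hmax hXN
    rcases Multiset.empty_or_exists_mem s with rfl | ⟨Y, hY⟩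
    · exfalso
      rw [Multiset.map_zero, Multiset.prod_zero, ← D.b_one] at hs2
      exact (hL.1.1 X hX).1 (D.b_inj hs2.symm)
    · obtain ⟨t, rfl⟩ := Multiset.exists_cons_of_mem hY
      rcases Multiset.empty_or_exists_mem t with rfl | ⟨Y', hY'⟩
      · simp only [Multiset.map_cons, Multiset.map_zero, Multiset.prod_cons, Multiset.prod_zero,
          mul_one] at hs2
        rw [← hs2]
        exact (hs1 Y hY).2
      · exfalso
        apply hat
        obtain ⟨t', rfl⟩ := Multiset.exists_cons_of_mem hY'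
        have hne : ∀ Z, Z ∈ Pr D (mon hL.1) → Z ∈ L := by
          intro Z hZ
          rcases (mem_mon hL.1).1 hZ.1 with rfl | h
          · exfalso
            have := hZ.2.not_isUnit
            rw [D.b_one] at this
            exact this isUnit_one
          · exact h
        obtain ⟨W, hW1, hW2⟩ := hmx.1.prod (Y' ::ₘ t')
          (fun Z hZ => (hs1 Z (Multiset.mem_cons_of_mem hZ)).1)
        refine ⟨Y, hne Y (hs1 Y (Multiset.mem_cons_self _ _)), W, ?_, ?_⟩
        · rcases (mem_mon hL.1).1 hW2 with rfl | h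
          · exfalso
            have h1 : Y' ∈ Pr D (mon hL.1) :=
              hs1 Y' (Multiset.mem_cons_of_mem (Multiset.mem_cons_self _ _))
            refine h1.2.not_isUnit (IsUnit.of_mul_eq_one ((t'.map D.b).prod) ?_)
            rw [← D.b_one, hW1, Multiset.map_cons, Multiset.prod_cons]
          · exact h
        · rw [hW1, ← hs2, Multiset.map_cons (f := D.b) Y, Multiset.prod_cons]
  · rintro ⟨hX, hp⟩
    have hXL : X ∈ L := by
      rcases (mem_mon hL.1).1 hX with rfl | h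
      · exfalso
        have := hp.not_isUnit
        rw [D.b_one] at this
        exact this isUnit_one
      · exact h
    refine ⟨hXL, ?_⟩
    rintro ⟨Y, hY, Z, hZ, h⟩
    have hnu : ∀ Y ∈ L, ¬ IsUnit (D.b Y) := by
      intro Y hY hu
      have h1 : Associated (D.b Y) (D.b D.one) := by
        rw [D.b_one]
        exact associated_one_iff_isUnit.2 hu
      exact (hL.1.1 Y hY).1 (eq_of_assoc h1)
    rcases hp.irreducible.isUnit_or_isUnit h.symm with h1 | h1
    · exact hnu Y hY h1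
    · exact hnu Z hZ h1

/-- the final abstract statement: a maximal family is free on exactly `m` atomic members -/
theorem final (D : Sys I S O) (w : List I)
    (hspan : ∀ j, j <:+ w → Submodule.span ℚ {v | ∃ X, D.Ad j X ∧ D.str j X = v} = ⊤)
    (L : Set S) (hL : IsMaxFam D w L) :
    (Atoms D L).Finite ∧ (Atoms D L).ncard = w.length ∧ Generates D L (Atoms D L) ∧
      (∀ P, P ⊆ L → Generates D L P → Atoms D L ⊆ P) ∧
      ∀ s t : Multiset S, (∀ X ∈ s, X ∈ Atoms D L) → (∀ X ∈ t, X ∈ Atoms D L) →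
        (s.map D.b).prod = (t.map D.b).prod → s = t := by
  classical
  have hmx := mon_mx hL
  obtain ⟨hfull, hmax⟩ := mx_full hspan hmx
  have hat := atoms_eq hL hspan
  obtain ⟨hfin, hcard⟩ := card_pr hmx.1 hfull hmax
  refine ⟨?_, ?_, ?_, ?_, ?_⟩
  · rw [hat]; exact Set.toFinite _
  · rw [hat, Set.ncard]; exact hcard
  · intro X hX
    obtain ⟨s, hs1, hs2⟩ := factor hmx.1 hfull hmax ((mem_mon hL.1).2 (Or.inr hX))
    refine ⟨s, ?_, by rw [hat]; exact hs1, hs2⟩
    rintro rfl
    rw [Multiset.map_zero, Multiset.prod_zero, ← D.b_one] at hs2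
    exact (hL.1.1 X hX).1 (D.b_inj hs2.symm)
  · intro P hP hgen X hX
    obtain ⟨s, hs0, hs1, hs2⟩ := hgen X hX.1
    obtain ⟨Y, hY⟩ := Multiset.exists_mem_of_ne_zero hs0
    obtain ⟨t, rfl⟩ := Multiset.exists_cons_of_mem hY
    rcases Multiset.empty_or_exists_mem t with rfl | ⟨Y', hY'⟩
    · simp only [Multiset.map_cons, Multiset.map_zero, Multiset.prod_cons, Multiset.prod_zero,
        mul_one] at hs2
      rw [← D.b_inj hs2]
      exact hs1 Y hY
    · exfalso
      obtain ⟨t', rfl⟩ := Multiset.exists_cons_of_mem hY'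
      have hmem : ∀ Z ∈ Y' ::ₘ t', D.b Z ∈ mon hL.1 := fun Z hZ =>
        (mem_mon hL.1).2 (Or.inr (hP (hs1 Z (Multiset.mem_cons_of_mem hZ))))
      obtain ⟨W', hW'1, hW'2⟩ := hmx.1.prod t' (fun Z hZ => hmem Z (Multiset.mem_cons_of_mem hZ))
      obtain ⟨W, hW1, hW2⟩ := hmx.1.prod (Y' ::ₘ t') hmem
      refine hX.2 ⟨Y, hP (hs1 Y hY), W, ?_, ?_⟩
      · rcases (mem_mon hL.1).1 hW2 with rfl | h
        · exfalso
          rw [Multiset.map_cons, Multiset.prod_cons, ← hW'1] at hW1
          exact mul_ne_one (hL.1.1 Y' (hP (hs1 Y'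
            (Multiset.mem_cons_of_mem (Multiset.mem_cons_self _ _))))).1 hW1.symm
        · exact h
      · rw [hW1, ← hs2, Multiset.map_cons (f := D.b) Y, Multiset.prod_cons]
  · intro s t hs ht h
    rw [hat] at hs ht
    exact uniq hs ht h

end Sys

end Pool.Agent.KLRAbs
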